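import Pool.Agent.helper55.NM.Spec

/-! Project NM, row TRV. -/

set_option autoImplicit false

namespace Pool.Agent.helper4.NM

open Pool.Agent.NM Finset Nat

theorem TRV_lt {q : ℕ} (y : Fin q → ℝ) (τ : Equiv.Perm (Fin q)) (hy : ∀ i, 0 < y i)
    {j1 j2 : ℕ} (h : j1 < j2) (h2 : j2 ≤ q) : Yp y τ j1 < Yp y τ j2 := by
  unfold Yp
  refine Finset.sum_lt_sum_of_subset (i := ⟨j1, by omega⟩) ?_ ?_ ?_ (hy _) fun i _ _ => (hy _).le
  · intro i hi
    rw [Finset.mem_filter] at hi ⊢
    exact ⟨hi.1, hi.2.trans h⟩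
  · rw [Finset.mem_filter]
    exact ⟨Finset.mem_univ _, h⟩
  · rw [Finset.mem_filter]
    simp

theorem TRV_mono (q j k : ℕ) (hjk : j ≤ k) (hk : 2 * k ≤ q) : q.choose j ≤ q.choose k := by
  induction k, hjk using Nat.le_induction with
  | base => exact le_rfl
  | succ k hk' ih =>
    refine (ih (by omega)).trans ?_
    exact Nat.choose_le_succ_of_lt_half_left (by omega)

/-- Row TRV. -/
theorem TRV : TRV_stmt := by
  intro p q k X y τ hy hk
  unfold Wt
  have key : ∀ I : Finset (Fin p), (∑ j ∈ range (q + 1),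
      if I.card + j ≤ k ∧ Yp y τ j = ∑ i ∈ I, X i then q.choose j else 0) ≤ q.choose k := by
    intro I
    by_cases hex : ∃ j ∈ range (q + 1), I.card + j ≤ k ∧ Yp y τ j = ∑ i ∈ I, X i
    · obtain ⟨j0, hj0, h1, h2⟩ := hex
      have hj0' : j0 ≤ q := Nat.lt_succ_iff.mp (Finset.mem_range.mp hj0)
      rw [Finset.sum_eq_single_of_mem j0 hj0]
      · rw [if_pos ⟨h1, h2⟩]
        exact TRV_mono q j0 k (by omega) hk
      · intro j hj hne
        rw [if_neg]
        rintro ⟨-, h3⟩
        have hj' : j ≤ q := Nat.lt_succ_iff.mp (Finset.mem_range.mp hj)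
        rcases lt_or_gt_of_ne hne with h | h
        · exact absurd (h3.trans h2.symm) (TRV_lt y τ hy h hj0').ne
        · exact absurd (h3.trans h2.symm) (TRV_lt y τ hy h hj').ne'
    · rw [Finset.sum_eq_zero]
      · exact Nat.zero_le _
      · intro j hj
        rw [if_neg]
        exact fun h => hex ⟨j, hj, h⟩
  refine (Finset.sum_le_card_nsmul _ _ _ fun I _ => key I).trans ?_
  rw [smul_eq_mul]
  refine Nat.mul_le_mul_right _ ?_
  refine (Finset.card_le_univ _).trans ?_
  rw [Fintype.card_finset, Fintype.card_fin]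

end Pool.Agent.helper4.NM
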